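import Pool.Agent.helper83.OD.Spec
import Pool.Agent.helper29.OC.PIAP

set_option autoImplicit false

open Finset PowerSeries

noncomputable section

namespace Pool.Agent.OD

open Pool.Agent.EP

theorem FIN_mono {X Y : ℕ} (h : X ≤ Y) : sO X ≤ sO Y := by
  unfold sO
  apply card_le_card
  intro n hn
  rw [mem_filter, mem_range] at hn ⊢
  exact ⟨by omega, hn.2⟩

/-- the arithmetic of the final step -/
theorem FIN_arith (c₀ y r L A B S s q : ℝ) (hc : 0 < c₀) (hr : r ^ 2 = y) (hr1 : 1 ≤ r)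
    (hL : 0 < L) (hA : 7 * c₀ * y / L ≤ A) (hB : c₀ * y / L ≤ B) (hS1 : S ≤ 2 * r) (_hS0 : 0 < S)
    (hs : 0 ≤ s) (hq : 0 ≤ q) (hqr : q ≤ 2 * r) (hLq : L ≤ 7 * c₀ / 136 * q)
    (hcnt : A * B ≤ 6 * S * s + 17 * S * B) :
    7 * c₀ ^ 2 / 192 * q ^ 3 / L ^ 2 ≤ s := by
  have hr0 : 0 < r := by linarith
  have hy0 : 0 < y := by rw [← hr]; positivity
  have hB0 : 0 < B := lt_of_lt_of_le (by positivity) hB
  have hA0 : 0 < A := lt_of_lt_of_le (by positivity) hA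
  -- 17 S ≤ A / 2
  have h1 : 17 * S ≤ A / 2 := by
    have h2 : 68 * r ≤ 7 * c₀ * y / L := by
      rw [le_div_iff₀ hL, ← hr]
      have : 68 * r * L ≤ 68 * r * (7 * c₀ / 136 * (2 * r)) := by
        apply mul_le_mul_of_nonneg_left _ (by positivity)
        calc L ≤ 7 * c₀ / 136 * q := hLq
          _ ≤ 7 * c₀ / 136 * (2 * r) := by
            apply mul_le_mul_of_nonneg_left hqr (by positivity)
      nlinarith
    linarith
  have h3 : A / 2 * B ≤ 6 * S * s := by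
    have : 17 * S * B ≤ A / 2 * B := mul_le_mul_of_nonneg_right h1 hB0.le
    nlinarith
  have h4 : 6 * S * s ≤ 12 * r * s := by
    have := mul_le_mul_of_nonneg_right hS1 hs
    nlinarith
  have h5 : (7 * c₀ * y / L) * (c₀ * y / L) ≤ A * B :=
    mul_le_mul hA hB (by positivity) hA0.le
  have h6 : (7 * c₀ * y / L) * (c₀ * y / L) = 7 * c₀ ^ 2 * r ^ 4 / L ^ 2 := by
    rw [← hr]; field_simp
  have h7 : 7 * c₀ ^ 2 * r ^ 4 / L ^ 2 ≤ 24 * r * s := by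
    rw [← h6]; linarith
  have h8 : q ^ 3 ≤ 8 * r ^ 3 := by
    calc q ^ 3 ≤ (2 * r) ^ 3 := pow_le_pow_left₀ hq hqr 3
      _ = 8 * r ^ 3 := by ring
  have h9 : 7 * c₀ ^ 2 * r ^ 3 / L ^ 2 ≤ 24 * s := by
    have h10 : r * (7 * c₀ ^ 2 * r ^ 3 / L ^ 2) ≤ r * (24 * s) := by
      calc r * (7 * c₀ ^ 2 * r ^ 3 / L ^ 2) = 7 * c₀ ^ 2 * r ^ 4 / L ^ 2 := by ring
        _ ≤ 24 * r * s := h7
        _ = r * (24 * s) := by ring
    exact le_of_mul_le_mul_left h10 hr0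
  calc 7 * c₀ ^ 2 / 192 * q ^ 3 / L ^ 2 ≤ 7 * c₀ ^ 2 / 192 * (8 * r ^ 3) / L ^ 2 := by
        apply div_le_div_of_nonneg_right _ (by positivity)
        apply mul_le_mul_of_nonneg_left h8 (by positivity)
    _ = (7 * c₀ ^ 2 * r ^ 3 / L ^ 2) / 24 := by ring
    _ ≤ s := by linarith

theorem FIN (hCNT : CNT_stmt) : FIN_stmt := by
  obtain ⟨c₀, x₀, hc₀, hP⟩ := Pool.Agent.helper7.OC.primes_ap 24 5 (by norm_num) (by decide)
  have hP' : ∀ x : ℕ, x₀ ≤ x → c₀ * x / Real.log x ≤ (#(P5 x) : ℝ) := by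
    intro x hx
    have := hP x hx
    exact this
  have hev : ∀ᶠ X : ℕ in Filter.atTop, Real.log (X : ℝ) ≤ 7 * c₀ / 136 * (X : ℝ) ^ (1 / 4 : ℝ) := by
    have h1 := (isLittleO_log_rpow_atTop (r := 1 / 4) (by norm_num)).bound
      (show (0 : ℝ) < 7 * c₀ / 136 by positivity)
    have h2 := tendsto_natCast_atTop_atTop (R := ℝ) |>.eventually h1
    filter_upwards [h2] with X hX
    rw [Real.norm_eq_abs, Real.norm_eq_abs, abs_of_nonneg (Real.rpow_nonneg (Nat.cast_nonneg X) _)] at hX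
    exact (le_abs_self _).trans hX
  obtain ⟨X₁, hX₁⟩ := Filter.eventually_atTop.mp hev
  refine ⟨7 * c₀ ^ 2 / 192, by positivity, max (max X₁ (16 * (x₀ + 200) ^ 2)) 1000000, ?_⟩
  intro X hX
  have hXX₁ : X₁ ≤ X := le_trans (le_trans (le_max_left _ _) (le_max_left _ _)) hX
  have hXx₀ : 16 * (x₀ + 200) ^ 2 ≤ X := le_trans (le_trans (le_max_right _ _) (le_max_left _ _)) hX
  have hXbig : 1000000 ≤ X := le_trans (le_max_right _ _) hX
  set y : ℕ := Nat.sqrt X / 3 with hy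
  have hsq1 : Nat.sqrt X * Nat.sqrt X ≤ X := Nat.sqrt_le X
  have hsq2 : X < (Nat.sqrt X + 1) * (Nat.sqrt X + 1) := Nat.lt_succ_sqrt X
  have h3y : 3 * y ≤ Nat.sqrt X := Nat.mul_div_le _ 3
  have h3y' : Nat.sqrt X < 3 * y + 3 := by omega
  have h9y : 9 * y ^ 2 ≤ X := by nlinarith
  have hs4 : 4 * (x₀ + 200) ≤ Nat.sqrt X := by
    rw [Nat.le_sqrt]
    nlinarith
  have hylarge : x₀ + 200 ≤ y := by omega
  have hs1000 : 1000 ≤ Nat.sqrt X := by
    rw [Nat.le_sqrt]; omega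
  have hy1 : 196 ≤ y := by omega
  have h7yX : 7 * y ≤ X := by nlinarith
  have hcnt := hCNT y hy1
  have hcntR : (#(P5 (7 * y)) : ℝ) * (#(P5 y) : ℝ) ≤
      6 * ((Nat.sqrt y : ℝ) + 1) * (sO (9 * y ^ 2) : ℝ) + 17 * ((Nat.sqrt y : ℝ) + 1) * (#(P5 y) : ℝ) := by
    exact_mod_cast hcnt
  have hyR : (196 : ℝ) ≤ (y : ℝ) := by exact_mod_cast hy1
  have hL : 0 < Real.log (X : ℝ) := Real.log_pos (by exact_mod_cast (by omega : 1 < X))
  have hlog : ∀ z : ℕ, 1 < z → z ≤ X → ∀ a : ℝ, 0 ≤ a → a / Real.log X ≤ a / Real.log z := by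
    intro z hz hzX a ha
    apply div_le_div_of_nonneg_left ha
    · exact Real.log_pos (by exact_mod_cast hz)
    · exact Real.log_le_log (by exact_mod_cast (by omega : 0 < z)) (by exact_mod_cast hzX)
  have hA : 7 * c₀ * (y : ℝ) / Real.log X ≤ (#(P5 (7 * y)) : ℝ) := by
    refine le_trans ?_ (hP' (7 * y) (by omega))
    have := hlog (7 * y) (by omega) h7yX (7 * c₀ * (y : ℝ)) (by positivity)
    refine this.trans (le_of_eq ?_)
    push_cast; ring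
  have hB : c₀ * (y : ℝ) / Real.log X ≤ (#(P5 y) : ℝ) := by
    refine le_trans ?_ (hP' y (by omega))
    exact hlog y (by omega) (by omega) (c₀ * (y : ℝ)) (by positivity)
  set r : ℝ := Real.sqrt y with hr
  have hr2 : r ^ 2 = (y : ℝ) := Real.sq_sqrt (by positivity)
  have hr1 : 1 ≤ r := by
    rw [hr]; exact Real.one_le_sqrt.mpr (by linarith)
  have hsy : (Nat.sqrt y : ℝ) ≤ r := by
    apply Real.le_sqrt_of_sq_le
    exact_mod_cast (by rw [pow_two]; exact Nat.sqrt_le y : (Nat.sqrt y) ^ 2 ≤ y)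
  set q : ℝ := (X : ℝ) ^ (1 / 4 : ℝ) with hq
  have hq0 : 0 ≤ q := Real.rpow_nonneg (Nat.cast_nonneg X) _
  have hq4 : q ^ 4 = (X : ℝ) := by
    rw [hq, ← Real.rpow_natCast, ← Real.rpow_mul (Nat.cast_nonneg X)]
    norm_num
  have hq3 : q ^ 3 = (X : ℝ) ^ (3 / 4 : ℝ) := by
    rw [hq, ← Real.rpow_natCast, ← Real.rpow_mul (Nat.cast_nonneg X)]
    norm_num
  have hqr : q ≤ 2 * r := by
    have h1 : X ≤ (4 * y) ^ 2 := by nlinarith
    have h2 : q ^ 4 ≤ (2 * r) ^ 4 := by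
      rw [hq4]
      have : (2 * r) ^ 4 = ((4 * y : ℕ) : ℝ) ^ 2 := by
        push_cast
        rw [← hr2]; ring
      rw [this]
      exact_mod_cast h1
    exact le_of_pow_le_pow_left₀ (by norm_num) (by positivity) h2
  have hfin := FIN_arith c₀ (y : ℝ) r (Real.log X) (#(P5 (7 * y)) : ℝ) (#(P5 y) : ℝ)
    ((Nat.sqrt y : ℝ) + 1) (sO (9 * y ^ 2) : ℝ) q hc₀ hr2 hr1 hL hA hB (by linarith) (by positivity)
    (by positivity) hq0 hqr (hX₁ X hXX₁) hcntR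
  rw [hq3] at hfin
  refine hfin.trans ?_
  exact_mod_cast FIN_mono h9y

end Pool.Agent.OD
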